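import Pool.Agent.N794.CG.Hyp

/-!
# The joint moments of the coefficients of the normalised `L`-polynomials of hyperelliptic curves of every genus with coefficients in automatic sets

The curves are `Y ^ 2 = X ^ (2 g + 1) + m (2 g) X ^ (2 g) + ... + m 0`. The moments of weight at most `2 g + 1` in the statement are,
by theorems of Diaconis-Shahshahani and Hughes-Rudnick (not used here), those of the coefficients of the characteristic
polynomials of random matrices in `USp(2 g)`.

From Mathlib: `DFA ℕ σ`: finite automata (for `[Fintype σ]`) which read words of natural numbers; `Nat.digits b v`: the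
digits of `v` in base `b`, the least significant digit first.

Method: the random member of an automatic set of more than polylogarithmic size is dominated, up to a power of the
logarithm, by a random integer whose characteristic function decays (starting library, `Pool.Agent.H491R4.AF`); the
passage from there to sums over primes of functions of residues, for almost all members, is from the starting library
(`Pool.Agent.R459.Eq`) in the case of one variable; here an induction on the number of the coefficients. The local means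
are from `Pool.Agent.N842.ST` (helper842).
-/

set_option autoImplicit false

namespace Pool.Agent.Results.MP_3da4c4_nt.AutomaticCoefficients

open Finset Filter Pool.Agent.N794.CG

open Classical in
/-- The integers `0 ≤ v < N` whose digits in base `b` (the least significant digit first) are accepted by the automaton
`M`. -/
noncomputable def members {σ : Type} (b : ℕ) (M : DFA ℕ σ) (N : ℕ) : Finset ℕ :=
  (range N).filter (fun v => Nat.digits b v ∈ M.accepts)

open Classical in
/-- The number of the solutions of `Y ^ 2 = X ^ (2 g + 1) + m (2 g) X ^ (2 g) + ... + m 1 X + m 0` in the field with `p ^ k`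
elements, `p` a prime number. -/
noncomputable def points (g k p : ℕ) (m : Fin (2 * g + 1) → ℤ) : ℕ :=
  if h : p.Prime then
    haveI : Fact p.Prime := ⟨h⟩
    Nat.card {P : GaloisField p k × GaloisField p k //
      P.2 ^ 2 = P.1 ^ (2 * g + 1) + ∑ i, (m i : GaloisField p k) * P.1 ^ (i : ℕ)}
  else 0

/-- `p` is odd and the polynomial `X ^ (2 g + 1) + m (2 g) X ^ (2 g) + ... + m 0` is separable modulo `p`, so that the curve
`C : Y ^ 2 = X ^ (2 g + 1) + m (2 g) X ^ (2 g) + ... + m 0` of genus `g` has good reduction at `p`. -/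
def Smooth (g p : ℕ) (m : Fin (2 * g + 1) → ℤ) : Prop :=
  p ≠ 2 ∧ (Polynomial.X ^ (2 * g + 1) + ∑ i, Polynomial.C (m i : ZMod p) * Polynomial.X ^ (i : ℕ)).Separable

/-- The number `(#C(F_q) - (q + 1)) / q ^ (1 / 2)`, where `q = p ^ k` (there is one point at infinity), that is, `-1` times the sum of
the `k`-th powers of the inverse roots of the normalised `L`-polynomial at `p`. -/
noncomputable def powerSum (g k p : ℕ) (m : Fin (2 * g + 1) → ℤ) : ℝ :=
  (((points g k p m : ℝ) + 1) - ((p : ℝ) ^ k + 1)) / Real.sqrt p ^ k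

/-- The coefficient of `T ^ i` of the power series `exp (t 0 T + t 1 T ^ 2 / 2 + ... + t (D - 1) T ^ D / D)` (the formulas of
Newton). -/
noncomputable def coeff {D : ℕ} (t : Fin D → ℝ) : ℕ → ℝ
  | 0 => 1
  | i + 1 => (∑ j : Fin (i + 1), (if h : (j : ℕ) < D then t ⟨j, h⟩ else 0) * coeff t (i - j)) / (i + 1)

open Classical in
/-- The coefficient of `T ^ i` of the normalised `L`-polynomial of the curve `C` at `p`; `0` if the curve is not smooth modulo `p`. -/
noncomputable def a (g i p : ℕ) (m : Fin (2 * g + 1) → ℤ) : ℝ :=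
  if Smooth g p m then coeff (fun k : Fin (2 * g + 1) => powerSum g (k + 1) p m) i else 0

open Classical in
/-- The mean of the product of the powers with the exponents `q i` of the coefficients of `T ^ i` (`1 ≤ i ≤ 2 g + 1`; here the
index is `i - 1`) of the power series `exp (∑ X_k T ^ k / k)`, where the `X_k` are independent normal variables with the
variances `k` and the means `1` for even `k` and `0` for odd `k`. -/
noncomputable def moment (g : ℕ) (q : Fin (2 * g + 1) → ℕ) : ℝ :=
  ∫ x : Fin (2 * g + 1) → ℝ, ∏ i : Fin (2 * g + 1), coeff x (i + 1) ^ q i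
    ∂(MeasureTheory.Measure.pi (fun k : Fin (2 * g + 1) =>
      ProbabilityTheory.gaussianReal (((if Even ((k : ℕ) + 1) then 1 else 0 : ℕ)) : ℝ) (((k : ℕ) + 1 : ℕ) : NNReal)))

open Classical in
/-- The number of the primes `p ≤ x` in `T`. -/
noncomputable def number (T : Set ℕ) (x : ℕ) : ℕ := ((range (x + 1)).filter (fun p => p.Prime ∧ p ∈ T)).card

open Classical in
/-- For all exponents `q i` (`1 ≤ i ≤ 2 g + 1`; here the index is `i - 1`) of weight `∑ i (q i) ≤ 2 g + 1` and all
`j ≤ x ^ (δ / 4)`: the sum over the primes `p ≤ x` in `T j` of `∏ a_i(p) ^ (q i)` differs from `moment g q` times the number of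
these primes by at most `x ^ δ` times the square root of the number of the primes `p ≤ 2 x` in `T j` (or of `1`). -/
def Moments (g : ℕ) (δ : ℝ) (T : ℕ → Set ℕ) (x : ℕ) (m : Fin (2 * g + 1) → ℤ) : Prop :=
  ∀ q : Fin (2 * g + 1) → ℕ, ∑ i : Fin (2 * g + 1), (i + 1 : ℕ) * q i ≤ 2 * g + 1 → ∀ j : ℕ, (j : ℝ) ≤ (x : ℝ) ^ (δ / 4) →
    |∑ p ∈ (range (x + 1)).filter (fun p => p.Prime ∧ p ∈ T j), ∏ i : Fin (2 * g + 1), a g (i + 1) p m ^ q i -
      moment g q * number (T j) x| ≤ Real.sqrt (max 1 (number (T j) (2 * x) : ℝ)) * (x : ℝ) ^ δ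

lemma coeff_eq {D : ℕ} (t : Fin D → ℝ) (i : ℕ) : coeff t i = Pool.Agent.N842.ST.cl t i := by
  induction i using Nat.strong_induction_on with
  | _ i ih =>
    cases i with
    | zero => rw [coeff, Pool.Agent.N842.ST.cl]
    | succ i =>
      rw [coeff, Pool.Agent.N842.ST.cl]
      congr 1
      refine sum_congr rfl fun j _ => ?_
      rw [ih (i - j) (by omega)]

lemma smooth_eq (g p : ℕ) (hp : p.Prime) (m : Fin (2 * g + 1) → ℤ) :
    Smooth g p m ↔ Pool.Agent.N842.ST.Good 2 (2 * g + 1) p (red p m) := by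
  haveI : Fact p.Prime := ⟨hp⟩
  unfold Smooth Pool.Agent.N842.ST.Good
  simp only [red_cast p hp.pos m (ZMod p)]

lemma points_eq (g k : ℕ) (p : ℕ) (hp : p.Prime) (m : Fin (2 * g + 1) → ℤ) : haveI : Fact p.Prime := ⟨hp⟩
    points g k p m = Nat.card {P : GaloisField p k × GaloisField p k //
      P.2 ^ 2 = P.1 ^ (2 * g + 1) + ∑ i, (red p m i : GaloisField p k) * P.1 ^ (i : ℕ)} := by
  haveI : Fact p.Prime := ⟨hp⟩
  unfold points
  rw [dif_pos hp]
  simp only [red_cast p hp.pos m (GaloisField p k)]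

lemma ps_eq (g k : ℕ) (hk : k ≠ 0) (p : ℕ) (hp : p.Prime) (m : Fin (2 * g + 1) → ℤ) (hm : Smooth g p m) :
    powerSum g k p m = Pool.Agent.N842.ST.A 2 (2 * g + 1) k p (red p m) := by
  classical
  have : Fact p.Prime := ⟨hp⟩
  unfold powerSum Pool.Agent.N842.ST.A
  have h3 : (Pool.Agent.N842.ST.fp p (fun i => ((red p m i : ℕ) : ZMod p))).Separable := ((smooth_eq g p hp m).1 hm).2
  rw [dif_pos ⟨hp, hm.1⟩, if_pos h3, points_eq g k p hp m, Pool.Agent.N842.ST.card_points 2 p k hk (red p m)]
  congr 1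
  ring

open Classical in
lemma a_eq (g i : ℕ) (p : ℕ) (hp : p.Prime) (m : Fin (2 * g + 1) → ℤ) : a g i p m =
    if Pool.Agent.N842.ST.Good 2 (2 * g + 1) p (red p m) then
      Pool.Agent.N842.ST.cl (fun j : Fin (2 * g + 1) => Pool.Agent.N842.ST.A 2 (2 * g + 1) (j + 1) p (red p m)) i else 0 := by
  unfold a
  by_cases h : Smooth g p m
  · rw [if_pos h, if_pos ((smooth_eq g p hp m).1 h), coeff_eq]
    congr 1
    funext k
    exact ps_eq g (k + 1) (by omega) p hp m h
  · rw [if_neg h, if_neg (fun h' => h ((smooth_eq g p hp m).2 h'))]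

lemma moment_eq (g : ℕ) (q : Fin (2 * g + 1) → ℕ) : moment g q = hm (2 * g + 1) q := by
  unfold moment hm
  simp only [coeff_eq]

lemma number_eq (T : Set ℕ) (x : ℕ) : number T x = cntT T x := by
  classical
  unfold number cntT
  congr 1
  ext p
  rw [mem_filter, mem_filter, mem_range, Pool.Agent.R459.Eq.mem_pri]
  constructor
  · rintro ⟨h1, h2, h3⟩
    exact ⟨⟨by omega, h2⟩, h3⟩
  · rintro ⟨⟨h1, h2⟩, h3⟩
    exact ⟨by omega, h2, h3⟩

lemma sum_split (S : Finset ℕ) (T : Set ℕ) (f : ℕ → ℝ) (c : ℝ) [DecidablePred (· ∈ T)] :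
    ∑ p ∈ S, (if p ∈ T then f p - c else 0) =
      ∑ p ∈ S.filter (fun p => p ∈ T), f p - c * ((S.filter (fun p => p ∈ T)).card : ℝ) := by
  rw [← sum_filter, sum_sub_distrib, sum_const, nsmul_eq_mul, mul_comm c]

lemma filter_eq (T : Set ℕ) (x : ℕ) [DecidablePred (· ∈ T)] [DecidablePred (fun p : ℕ => p.Prime ∧ p ∈ T)] :
    (range (x + 1)).filter (fun p => p.Prime ∧ p ∈ T) = (Pool.Agent.R459.Eq.pri x).filter (fun p => p ∈ T) := by
  ext p
  rw [mem_filter, mem_filter, mem_range, Pool.Agent.R459.Eq.mem_pri]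
  constructor
  · rintro ⟨h1, h2, h3⟩
    exact ⟨⟨by omega, h2⟩, h3⟩
  · rintro ⟨⟨h1, h2⟩, h3⟩
    exact ⟨by omega, h2, h3⟩

lemma prod_eq (g p : ℕ) (hp : p.Prime) (q : Fin (2 * g + 1) → ℕ) (m : Fin (2 * g + 1) → ℤ) :
    ∏ i : Fin (2 * g + 1), a g (i + 1) p m ^ q i = Pool.Agent.N842.ST.CV 2 (2 * g + 1) p q (red p m) := by
  classical
  unfold Pool.Agent.N842.ST.CV
  refine prod_congr rfl fun i _ => ?_
  rw [a_eq g (i + 1) p hp]

lemma good_moments (g : ℕ) (δ : ℝ) (T : ℕ → Set ℕ) (x : ℕ) (m : Fin (2 * g + 1) → ℤ)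
    (h : GoodQ δ T (adm (2 * g + 1)) (fun q p m => Pool.Agent.N842.ST.CV 2 (2 * g + 1) p q (red p m))
      (fun q _ => hm (2 * g + 1) q) x m) : Moments g δ T x m := by
  classical
  intro q hq j hj
  have h1 := h q ((mem_adm (2 * g + 1) q).2 hq) j hj
  have h2 : ∑ p ∈ Pool.Agent.R459.Eq.pri x, (if p ∈ T j then
      Pool.Agent.N842.ST.CV 2 (2 * g + 1) p q (red p m) - hm (2 * g + 1) q else 0) =
      ∑ p ∈ (range (x + 1)).filter (fun p => p.Prime ∧ p ∈ T j), ∏ i : Fin (2 * g + 1), a g (i + 1) p m ^ q i -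
      moment g q * number (T j) x := by
    rw [sum_split, moment_eq, number_eq, filter_eq]
    have key : ∀ p ∈ (Pool.Agent.R459.Eq.pri x).filter (fun p => p ∈ T j),
        ∏ i : Fin (2 * g + 1), a g (i + 1) p m ^ q i = Pool.Agent.N842.ST.CV 2 (2 * g + 1) p q (red p m) :=
      fun p hp => prod_eq g p (Pool.Agent.R459.Eq.mem_pri.1 (mem_filter.1 hp).1).2 q m
    rw [sum_congr rfl key]
    unfold cntT
    with_reducible rfl
  rw [← h2, number_eq]
  beta_reduce at h1
  with_reducible exact h1

open Classical in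
/-- Let a genus `g` be given, and `0 < δ ≤ 1`. Let `A i` be finite automata, where `A i` accepts the digits, in base `b i ≥ 2`, of more
than polylogarithmically many integers: for every `k` there are infinitely many `N` such that more than `(log N) ^ k`
integers `v < N` are accepted (this excludes only sparse sets; the number of the accepted `v < N` may be `N ^ c` with
arbitrarily small `c > 0`). There are `W` and `e` such that for all `κ i ≠ 0` and all sufficiently large `X` the following
holds for all `N i`, all integers `c i` and ALL sequences `T j` of pairwise disjoint sets of primes.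

If every coefficient `m i = c i + κ i v i` runs through the `v i < N i` accepted by `A i`, then with the exception of at
most a proportion `(∑ (1 + log N i) ^ e) X ^ (- δ / 8)` of the vectors, the curve `Y ^ 2 = X ^ (2 g + 1) + m (2 g) X ^ (2 g) + ... + m 0` has the following property for
ALL `x ≥ X` with `x ^ W ≤ N i` for all `i`: all the joint moments of weight at most `2 g + 1` of the coefficients `a_i(p)` of the normalised `L`-polynomials have, over the primes `p ≤ x` in `T j`, the values `moment`, up to an error `x ^ δ` times the square root of the number of the primes `p ≤ 2 x` in `T j`, for ALL `j ≤ x ^ (δ / 4)`; in particular the `m`-th moment of `a_k` for all `k m ≤ 2 g + 1`. -/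
theorem result (g : ℕ) (δ : ℝ) (hδ : 0 < δ) (hδ1 : δ ≤ 1) (σ : Fin (2 * g + 1) → Type) [∀ i, Fintype (σ i)] (b : Fin (2 * g + 1) → ℕ)
    (hb : ∀ i, 2 ≤ b i) (A : ∀ i, DFA ℕ (σ i))
    (hS : ∀ i, ∀ k : ℕ, ∃ᶠ N : ℕ in atTop, Real.log N ^ k < ((members (b i) (A i) N).card : ℝ)) : ∃ W e : ℕ, 1 ≤ W ∧
    ∀ κ : Fin (2 * g + 1) → ℤ, (∀ i, κ i ≠ 0) → ∃ X₀ : ℕ, ∀ X : ℕ, X₀ ≤ X → ∀ (N : Fin (2 * g + 1) → ℕ) (c : Fin (2 * g + 1) → ℤ) (T : ℕ → Set ℕ),
    (∀ p j j', p ∈ T j → p ∈ T j' → j = j') →
    (((Fintype.piFinset (fun i => members (b i) (A i) (N i))).filter (fun v => ¬ ∀ x : ℕ, X ≤ x → (∀ i, x ^ W ≤ N i) →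
      Moments g δ T x (fun i => c i + κ i * v i))).card : ℝ) ≤
      ((∑ i, (1 + Real.log (N i)) ^ e) * (X : ℝ) ^ (-(δ / 8))) * ∏ i, ((members (b i) (A i) (N i)).card : ℝ) := by
  obtain ⟨W, e, hW, H⟩ := multi_aut (hyp_data g) δ hδ hδ1 σ b hb A hS
  refine ⟨W, e, hW, fun κ hκ => ?_⟩
  obtain ⟨X₀, J⟩ := H κ hκ
  refine ⟨X₀, fun X hX N c T hT => ?_⟩
  refine le_trans (Nat.cast_le.2 (card_le_card fun v hv => ?_)) (J X hX N c T hT)
  rw [mem_filter] at hv ⊢
  exact ⟨hv.1, fun hcon => hv.2 fun x hXx hx => good_moments g δ T x _ (hcon x hXx hx)⟩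

end Pool.Agent.Results.MP_3da4c4_nt.AutomaticCoefficients
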