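import Pool.Agent.N881.GW.V5

/-!
# The moments of the L-polynomials and the poles of L-functions at one point

`X` is a projective variety over a number field `K`, for example a curve of genus `g` over `ℚ`, `i = 1`
and `N = 2g`.  For a prime `v ∉ S` let `a_k(v)` be the coefficient of `T^k` of the normalised
`L`-polynomial `∏_j (1 - α_j Nv^{-i/2} T)` of `H^i(X)`.  The averages

`W_A(f)(x) = √(A / (π log x)) ∑_{v ∉ S} f(v) log(Nv)/Nv exp (-A (log (Nv / x))² / log x)`

are used.  A joint moment of the `a_k(v)` is `c + O(x^{-η})` in these averages if and only if one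
`L`-function, the one of a tensor product of exterior powers of `H^i(X)`, has a pole of order `± c` at
the single point `s = 1`.  Nothing is assumed about other points of the line `Re s = 1`.

The definition of `IsFrobenius` is in `Pool/Agent/TH958/BV/Defs.lean`.
-/

set_option autoImplicit false

namespace Pool.Agent.Results.MP_3da4c4_nt.MomentPoleCriterion

open MeasureTheory NumberField IsDedekindDomain Filter Topology
open Pool.Agent.TH958.BV

section

variable {K : Type} [Field K] [NumberField K] {N : ℕ}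

/-- The normalised eigenvalue `α_j Nv^{-i/2}` of Frobenius. -/
noncomputable def unitary (α : HeightOneSpectrum (𝓞 K) → Fin N → ℂ) (i : ℕ)
    (v : HeightOneSpectrum (𝓞 K)) (j : Fin N) : ℂ :=
  α v j * (((Ideal.absNorm v.asIdeal : ℝ) ^ (-((i : ℝ) / 2)) : ℝ) : ℂ)

/-- `a_k(v)`, the coefficient of `T^k` in `∏_j (1 - α_j Nv^{-i/2} T)`. -/
noncomputable def coefficient (α : HeightOneSpectrum (𝓞 K) → Fin N → ℂ) (i : ℕ)
    (v : HeightOneSpectrum (𝓞 K)) (k : ℕ) : ℂ :=
  (-1) ^ k * ∑ T ∈ Finset.powersetCard k Finset.univ, ∏ j ∈ T, unitary α i v j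

open Classical in
/-- The Euler product over the primes `v ∉ S` of the tensor product of the exterior powers of the
degrees `κ l`, `l < m`, of `H^i(X)`, normalised such that its edge is `Re s = 1`.  The eigenvalues of
Frobenius at `v` are the products over `l` of the products of `κ l` of the eigenvalues. -/
noncomputable def tensorL (α : HeightOneSpectrum (𝓞 K) → Fin N → ℂ)
    (S : Finset (HeightOneSpectrum (𝓞 K))) (i : ℕ) {m : ℕ} (κ : Fin m → ℕ) (s : ℂ) : ℂ :=
  ∏' v : HeightOneSpectrum (𝓞 K), if v ∈ S then 1 else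
    ∏ t : (∀ l : Fin m, {T : Finset (Fin N) // T.card = κ l}),
      (1 - (∏ l, ∏ j ∈ (t l).1, unitary α i v j) * (Ideal.absNorm v.asIdeal : ℂ) ^ (-s))⁻¹

open Classical in
/-- The average `W_A(f)(x)` over the primes outside `S`. -/
noncomputable def average (f : HeightOneSpectrum (𝓞 K) → ℝ) (S : Finset (HeightOneSpectrum (𝓞 K)))
    (A x : ℝ) : ℝ :=
  √(A / (Real.pi * Real.log x)) * ∑' v : HeightOneSpectrum (𝓞 K), if v ∈ S then 0 else
    f v * (Real.log (Ideal.absNorm v.asIdeal) / (Ideal.absNorm v.asIdeal : ℝ) *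
      Real.exp (-(A * (Real.log (Ideal.absNorm v.asIdeal) - Real.log x) ^ 2 / Real.log x)))

/-- The coefficients `a_1(v), …, a_N(v)`. -/
noncomputable def vector (α : HeightOneSpectrum (𝓞 K) → Fin N → ℂ) (i : ℕ)
    (v : HeightOneSpectrum (𝓞 K)) : Fin N → ℝ :=
  fun k => (coefficient α i v ((k : ℕ) + 1)).re

end

/-- `L` has a pole of order `ρ` at `s = 1`: it extends meromorphically from `Re s > 1` to a
neighbourhood of `1`, and `(s - 1)^ρ L(s)` is holomorphic and nonzero at `1`. -/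
def HasPole (L : ℂ → ℂ) (ρ : ℤ) : Prop :=
  ∃ F : ℂ → ℂ, AnalyticAt ℂ F 1 ∧ F 1 ≠ 0 ∧
    ∀ᶠ s : ℂ in 𝓝 (1 : ℂ), 1 < s.re → (s - 1) ^ ρ * L s = F s

/-- **The criterion.**  Let `X` be a projective variety over a number field `K`, let `α_v` be the
eigenvalues of Frobenius on `H^i(X)` at the primes `v ∉ S`, `S` finite, and assume that the coefficients
`a_k(v)` are real (as the `L`-polynomials have integral coefficients).

1. For all `κ_1, …, κ_m` and every integer `c` the following are equivalent: the `L`-function of the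
   tensor product of the exterior powers of the degrees `κ_l` has a pole of order `c` at `s = 1`; for
   every `A > 0` there is an `η > 0` with
   `W_A(a_{κ_1} ⋯ a_{κ_m})(x) = (-1)^{κ_1 + ⋯ + κ_m} c + O(x^{-η})`, `x ≥ 2`; the same for one
   `A > 0`, `x → ∞`.
2. Let `ν` be a probability measure on a box in `ℝ^N` with integral moments (for example the law of
   the coefficients of `det (1 - T γ)` for a random element `γ` of a compact group).  The following
   are equivalent: for all `κ_1, …, κ_m ≥ 1` the `L`-function of the tensor product has at `s = 1` a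
   pole whose order is `(-1)^{κ_1 + ⋯ + κ_m}` times the moment `∫ y_{κ_1} ⋯ y_{κ_m} dν`; for all
   `A > 0` and all polynomials `P` there is an `η > 0` with `W_A(P(a))(x) = ∫ P dν + O(x^{-η})`; the
   same for one `A > 0`.
3. In the situation of (2), `W_A(f(a))(x) → ∫ f dν` for all continuous functions `f` and all
   `A > 0`. -/
theorem result (K : Type) [Field K] [NumberField K] (n : ℕ)
    (X : Set (MvPolynomial (Fin n) (𝓞 K))) (d i N : ℕ)
    (α : HeightOneSpectrum (𝓞 K) → Fin N → ℂ) (S : Finset (HeightOneSpectrum (𝓞 K)))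
    (hα : ∀ v ∉ S, IsFrobenius X d i v (α v))
    (hreal : ∀ v ∉ S, ∀ k : ℕ, (coefficient α i v k).im = 0) :
    (∀ (m : ℕ) (κ : Fin m → ℕ) (c : ℤ), List.TFAE [
      HasPole (tensorL α S i κ) c,
      ∀ A : ℝ, 0 < A → ∃ η : ℝ, 0 < η ∧ ∃ C : ℝ, ∀ x : ℝ, 2 ≤ x →
        |average (fun v => ∏ l, (coefficient α i v (κ l)).re) S A x - (-1) ^ (∑ l, κ l) * c| ≤
          C * x ^ (-η),
      ∃ A : ℝ, 0 < A ∧ ∃ η : ℝ, 0 < η ∧ ∃ C X₀ : ℝ, ∀ x : ℝ, X₀ ≤ x →
        |average (fun v => ∏ l, (coefficient α i v (κ l)).re) S A x - (-1) ^ (∑ l, κ l) * c| ≤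
          C * x ^ (-η)]) ∧
    ∀ (ν : Measure (Fin N → ℝ)) (_ : IsProbabilityMeasure ν) (R : ℝ)
      (_ : ∀ᵐ y ∂ν, ∀ k, |y k| ≤ R)
      (_ : ∀ (m : ℕ) (κ : Fin m → Fin N), ∃ c : ℤ, ∫ y, ∏ l, y (κ l) ∂ν = c),
      List.TFAE [
        ∀ (m : ℕ) (κ : Fin m → Fin N) (c : ℤ),
          (c : ℝ) = (-1) ^ (∑ l, ((κ l : ℕ) + 1)) * ∫ y, ∏ l, y (κ l) ∂ν →
          HasPole (tensorL α S i fun l => (κ l : ℕ) + 1) c,
        ∀ A : ℝ, 0 < A → ∀ P : MvPolynomial (Fin N) ℝ, ∃ η : ℝ, 0 < η ∧ ∃ C : ℝ,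
          ∀ x : ℝ, 2 ≤ x → |average (fun v => MvPolynomial.eval (vector α i v) P) S A x -
            ∫ y, MvPolynomial.eval y P ∂ν| ≤ C * x ^ (-η),
        ∃ A : ℝ, 0 < A ∧ ∀ P : MvPolynomial (Fin N) ℝ, ∃ η : ℝ, 0 < η ∧ ∃ C X₀ : ℝ,
          ∀ x : ℝ, X₀ ≤ x → |average (fun v => MvPolynomial.eval (vector α i v) P) S A x -
            ∫ y, MvPolynomial.eval y P ∂ν| ≤ C * x ^ (-η)] ∧
      ((∀ (m : ℕ) (κ : Fin m → Fin N) (c : ℤ),
          (c : ℝ) = (-1) ^ (∑ l, ((κ l : ℕ) + 1)) * ∫ y, ∏ l, y (κ l) ∂ν →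
          HasPole (tensorL α S i fun l => (κ l : ℕ) + 1) c) →
        ∀ f : (Fin N → ℝ) → ℝ, Continuous f → ∀ A : ℝ, 0 < A →
          Tendsto (fun x => average (fun v => f (vector α i v)) S A x) atTop
            (𝓝 (∫ y, f y ∂ν))) := by
  have hP : ∀ (L : ℂ → ℂ) (ρ : ℤ), HasPole L ρ ↔ Pool.Agent.N881.GW.PO L 1 ρ := by
    intro L ρ
    unfold HasPole Pool.Agent.N881.GW.PO
    simp only [Complex.ofReal_one]
  have h1 := Pool.Agent.N881.GW.frob_nev hα
  simp only [hP]
  exact ⟨fun m κ c => Pool.Agent.N881.GW.st_mono h1 hreal κ c,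
    fun ν _ R hν hint => Pool.Agent.N881.GW.st_dist h1 hreal hν hint⟩

end Pool.Agent.Results.MP_3da4c4_nt.MomentPoleCriterion
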