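import Pool.Agent.N842.PC.Mean

/-!
# The moments of the coefficients of the normalised L-polynomials of almost all smooth plane curves

The plane curve `C` of degree `d` is the projective closure of `x ^ d + z ^ d + ∑ m_α x ^ α_0 z ^ α_1 = 0`, where `α` runs through
the exponents of all monomials of degree less than `d`.  Its genus is `g = (d - 1) (d - 2) / 2`, and for `d ≥ 4` it is not
hyperelliptic, and generic for all `m` outside a thin set.

Let `a_(k,p)` be the coefficients of the normalised L-polynomial of `C`.  A monomial `Y = ∏ a_(k,p) ^ (κ k)` has the weight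
`∑ k (κ k)`.  We determine the means of the monomials `Y` of weight at most `d / q`, where the values with
`|Y| > p ^ (1 / (2 (q - 1)))` are replaced by `0`; by Weil's theorem `|a_(k,p)|` is at most the binomial coefficient of `2 g` and `k`,
so that there are such values only for the prime numbers `p` less than a number which depends only on `d` and `q`.
-/

set_option autoImplicit false

namespace Pool.Agent.Results.MP_3da4c4_nt.SmoothPlaneCurves

open Finset

/-- The exponents of the monomials of degree less than `d` in two variables. -/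
abbrev Exponent (d : ℕ) : Type := {α : Fin 2 → Fin d // ∑ i, (α i : ℕ) < d}

/-- The polynomial `x ^ d + z ^ d + ∑ u_k x ^ α_0 z ^ α_1` with `α = e k` over the ring `R`, where `e` is an enumeration of the
exponents. -/
noncomputable def poly {R : Type} [CommRing R] {d D : ℕ} (e : Fin D ≃ Exponent d) (u : Fin D → R) : MvPolynomial (Fin 2) R :=
  ∑ i, MvPolynomial.X i ^ d + ∑ k, MvPolynomial.C (u k) * ∏ i, MvPolynomial.X i ^ ((e k).1 i : ℕ)

section
variable {d D : ℕ} (e : Fin D ≃ Exponent d)

/-- The number `N_k` of the points over the field with `q = p ^ k` elements of the plane curve over the field with `p` elements with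
the coefficients `u`: the number of the zeros of the polynomial, and the number of the nonzero solutions of `x ^ d + z ^ d = 0`
divided by `q - 1` (these are the points at infinity). -/
noncomputable def points (k p : ℕ) [Fact p.Prime] (u : Fin D → ZMod p) : ℝ :=
  (Nat.card {x : Fin 2 → GaloisField p k // MvPolynomial.eval x (poly e (fun i => algebraMap (ZMod p) (GaloisField p k) (u i))) = 0} : ℝ) +
    ((Nat.card {x : Fin 2 → GaloisField p k // ∑ i, x i ^ d = 0} : ℝ) - 1) / ((p : ℝ) ^ k - 1)

/-- The number `P_k = (N_k - (q + 1)) / q ^ (1 / 2)`, where `q = p ^ k`, that is, `-1` times the sum of the `k`-th powers of the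
inverse roots of the normalised L-polynomial at `p`. -/
noncomputable def powerSum (k p : ℕ) [Fact p.Prime] (u : Fin D → ZMod p) : ℝ :=
  (points e k p u - ((p : ℝ) ^ k + 1)) / Real.sqrt p ^ k

/-- `p` does not divide `d`, and the polynomial and its partial derivatives do not have a common zero over the algebraic closure of
the field with `p` elements, so that the curve is smooth. -/
def Smooth (p : ℕ) [Fact p.Prime] (u : Fin D → ZMod p) : Prop :=
  ¬ p ∣ d ∧ ¬ ∃ x : Fin 2 → AlgebraicClosure (ZMod p),
    MvPolynomial.eval x (poly e (fun i => algebraMap (ZMod p) (AlgebraicClosure (ZMod p)) (u i))) = 0 ∧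
    ∀ i, MvPolynomial.eval x (MvPolynomial.pderiv i (poly e (fun i => algebraMap (ZMod p) (AlgebraicClosure (ZMod p)) (u i)))) = 0

end

/-- The coefficient of `T ^ i` of the power series `exp (t_1 T + t_2 T ^ 2 / 2 + ... + t_d T ^ d / d)` (the formulas of Newton; here
the indices of `t` begin with `0`). -/
noncomputable def coeff {d : ℕ} (t : Fin d → ℝ) : ℕ → ℝ
  | 0 => 1
  | i + 1 => (∑ j : Fin (i + 1), (if h : (j : ℕ) < d then t ⟨j, h⟩ else 0) * coeff t (i - j)) / (i + 1)

section
variable {d D : ℕ} (e : Fin D ≃ Exponent d)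

/-- The coefficient `a_(k,p)`, `k ≤ d`, of the normalised L-polynomial. -/
noncomputable def a (k p : ℕ) [Fact p.Prime] (u : Fin D → ZMod p) : ℝ := coeff (fun j : Fin d => powerSum e (j + 1) p u) k

/-- The monomial `Y = ∏ a_(k,p) ^ (κ k)` (`1 ≤ k ≤ d`; the index of `κ` is `k - 1`). -/
noncomputable def monomial (κ : Fin d → ℕ) (p : ℕ) [Fact p.Prime] (u : Fin D → ZMod p) : ℝ :=
  ∏ k : Fin d, a e (k + 1) p u ^ κ k

open Classical in
/-- The monomial `Y` if the curve is smooth and `|Y| ≤ p ^ (1 / (2 (q - 1)))`, and `0` otherwise. -/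
noncomputable def truncated (q : ℕ) (κ : Fin d → ℕ) (p : ℕ) [Fact p.Prime] (u : Fin D → ZMod p) : ℝ :=
  if Smooth e p u ∧ |monomial e κ p u| ≤ (p : ℝ) ^ (1 / (2 * ((q : ℝ) - 1))) then monomial e κ p u else 0

/-- The truncated monomial for the reduction of `C` modulo the prime number `p`. -/
noncomputable def value (q : ℕ) (κ : Fin d → ℕ) (p : ℕ) (m : Fin D → ℕ) : ℝ :=
  if h : p.Prime then
    haveI : Fact p.Prime := ⟨h⟩
    truncated e q κ p (fun i => (m i : ZMod p))
  else 0

end

open Classical in
/-- The mean of the product of the powers with the exponents `κ k` of the coefficients of `T ^ k` (`1 ≤ k ≤ d`; here the index is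
`k - 1`) of the power series `exp (∑ X_k T ^ k / k)`, where the `X_k` are independent normal variables with the variances `k` and the
means `1` for even `k` and `0` for odd `k`. -/
noncomputable def moment {d : ℕ} (κ : Fin d → ℕ) : ℝ :=
  ∫ x : Fin d → ℝ, ∏ i : Fin d, coeff x (i + 1) ^ κ i
    ∂(MeasureTheory.Measure.pi
      (fun k : Fin d => ProbabilityTheory.gaussianReal (if Even ((k : ℕ) + 1) then 1 else 0) (((k : ℕ) + 1 : ℕ) : NNReal)))

/-- For all weights `w` in `W` and all `κ_0, ..., κ_(s-1)` of weight at most `d / q`: the weighted sum over the first `x` primes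
`p_0 = 2, p_1, ...` of the products of the truncated monomials with the exponents `κ_i` at `p_(j + i)` differs from the weighted sum
of the products of the numbers `moment κ_i` at most by `(max 1 (∑ w j ^ 2)) ^ (1 / 2) x ^ (s / (2 (q - 1)) + δ)`. -/
def Moments {d D : ℕ} (e : Fin D ≃ Exponent d) (q s : ℕ) (δ : ℝ) (W : Set (ℕ → ℝ)) (x : ℕ) (m : Fin D → ℕ) : Prop :=
  ∀ w ∈ W, ∀ κ : Fin s → Fin d → ℕ, (∀ i, q * ∑ k : Fin d, (k + 1 : ℕ) * κ i k ≤ d) →
    |∑ j ∈ range x, w j * ∏ i : Fin s, value e q (κ i) (Nat.nth Nat.Prime (j + i)) m -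
        ∑ j ∈ range x, w j * ∏ i : Fin s, moment (κ i)| ≤
      Real.sqrt (max 1 (∑ j ∈ range x, w j ^ 2)) * (x : ℝ) ^ ((s : ℝ) / (2 * ((q : ℝ) - 1)) + δ)

/-- The digit number `i` (counted from the right, beginning with `0`) of `n` in base `b`. -/
def digit (b i n : ℕ) : ℕ := n / b ^ i % b

/-- The number which arises from the number `N` with at most `L` digits in base `b`, if for every `i ∈ S`
the digit number `i` is replaced by `f i`. -/
def change (b L N : ℕ) (f : ℕ → ℕ) (S : Finset ℕ) : ℕ :=
  ∑ i ∈ range L, (if i ∈ S then f i else digit b i N) * b ^ i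

open Classical in
/-- The number of the choices of `r j` of `L j` positions for all `j` for which the tuple of the numbers obtained by
changing the digits of the `N j` at the chosen positions (according to `f j`) does not have the property `E`. -/
noncomputable def exceptions {d : ℕ} (b : ℕ) (L r N : Fin d → ℕ) (f : Fin d → ℕ → ℕ) (E : (Fin d → ℕ) → Prop) : ℕ :=
  ((Fintype.piFinset (fun j => powersetCard (r j) (range (L j)))).filter
    (fun S => ¬ E (fun j => change b (L j) (N j) (f j) (S j)))).card

lemma exc_eq {d : ℕ} (b : ℕ) (L r N : Fin d → ℕ) (f : Fin d → ℕ → ℕ) (E : (Fin d → ℕ) → Prop) :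
    exceptions b L r N f E = Pool.Agent.Y57.FD.exceptions b L r N f E := rfl

lemma coeff_eq {d : ℕ} (t : Fin d → ℝ) (i : ℕ) : coeff t i = Pool.Agent.N842.ST.cl t i := by
  induction i using Nat.strong_induction_on with
  | _ i ih =>
    cases i with
    | zero => rw [coeff, Pool.Agent.N842.ST.cl]
    | succ i =>
      rw [coeff, Pool.Agent.N842.ST.cl]
      congr 1
      refine sum_congr rfl fun j _ => ?_
      rw [ih (i - j) (by omega)]

section
variable {d D : ℕ} (e : Fin D ≃ Exponent d)

lemma eval_poly (p : ℕ) [Fact p.Prime] (k : ℕ) (u : Fin D → ZMod p) (x : Fin 2 → GaloisField p k) :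
    MvPolynomial.eval x (poly e (fun i => algebraMap (ZMod p) (GaloisField p k) (u i))) =
      MvPolynomial.aeval x (Pool.Agent.N842.HS.fpl p (N := 2) e u) := by
  unfold poly Pool.Agent.N842.HS.fpl Pool.Agent.N842.HS.lowp
  rw [map_add, map_add, map_sum, map_sum, map_sum, map_sum]
  congr 1
  · refine sum_congr rfl fun i _ => ?_
    rw [map_pow, map_pow, MvPolynomial.eval_X, MvPolynomial.aeval_X]
  · refine sum_congr rfl fun k _ => ?_
    rw [map_mul, MvPolynomial.eval_C, map_prod, MvPolynomial.aeval_monomial, Finsupp.prod_fintype _ _ (fun _ => pow_zero _)]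
    congr 1
    refine prod_congr rfl fun i _ => ?_
    rw [map_pow, MvPolynomial.eval_X]
    rfl

lemma smooth_iff (p : ℕ) [Fact p.Prime] (u : Fin D → ZMod p) :
    Smooth e p u ↔ ¬ p ∣ d ∧ ¬ Pool.Agent.N842.HS.Sing (N := 2) e p u := by
  unfold Smooth Pool.Agent.N842.HS.Sing poly Pool.Agent.N842.HS.PF
  exact Iff.rfl

lemma powerSum_eq (p : ℕ) [Fact p.Prime] (k : ℕ) (u : Fin D → ZMod p) :
    powerSum e k p u = - Pool.Agent.N842.HS.trk (N := 2) e p k u := by
  unfold powerSum Pool.Agent.N842.HS.trk points Pool.Agent.N842.HS.infp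
  simp only [eval_poly]
  rw [sum_range_succ, sum_range_one, pow_zero, pow_one]
  norm_num
  ring

lemma monomial_eq (κ : Fin d → ℕ) (p : ℕ) [Fact p.Prime] (u : Fin D → ZMod p) :
    monomial e κ p u = Pool.Agent.N842.PC.YP (N := 2) e (Pool.Agent.N842.ST.CP d κ) p u := by
  unfold monomial a Pool.Agent.N842.PC.YP
  rw [Pool.Agent.N842.ST.CP_eval]
  simp only [coeff_eq, powerSum_eq]

lemma truncated_eq (q : ℕ) (κ : Fin d → ℕ) (p : ℕ) [Fact p.Prime] (u : Fin D → ZMod p) :
    truncated e q κ p u = Pool.Agent.N842.PC.Fk (N := 2) e κ (1 / (2 * (q - 1))) p u := by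
  classical
  unfold truncated Pool.Agent.N842.PC.Fk Pool.Agent.N842.PC.Tr
  rw [monomial_eq]
  exact if_congr (by rw [smooth_iff, and_assoc]) rfl rfl

lemma value_eq (q : ℕ) (κ : Fin d → ℕ) (p : ℕ) (m : Fin D → ℕ) :
    value e q κ p m = Pool.Agent.N842.PC.FY (N := 2) e κ (1 / (2 * (q - 1))) p m := by
  unfold value Pool.Agent.N842.PC.FY
  by_cases hp : p.Prime
  · rw [dif_pos hp, dif_pos hp]
    have : Fact p.Prime := ⟨hp⟩
    rw [truncated_eq]
  · rw [dif_neg hp, dif_neg hp]

lemma moment_eq (κ : Fin d → ℕ) : moment κ = Pool.Agent.N842.PC.MI 2 (Pool.Agent.N842.ST.CP d κ) := by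
  unfold moment Pool.Agent.N842.PC.MI
  simp only [Pool.Agent.N842.ST.CP_eval, coeff_eq]
  have h1 : ∀ k : Fin d, ((-1 : ℝ) ^ 2 * Pool.Agent.N842.HS.etak ((k : ℕ) + 1)) = (if Even ((k : ℕ) + 1) then 1 else 0) := by
    intro k
    unfold Pool.Agent.N842.HS.etak
    split_ifs <;> norm_num
  simp only [h1]

end

/-- Let a degree `d ≥ 2`, an even number `q ≥ 2`, `s ≥ 1`, a base `b ≥ 2`, `δ > 0` and integers `A, B ≥ 0` be given.  There are
`c > 0` and `y₀` such that for all integers `r j`, `L j` (`j < D`, where `D = d (d + 1) / 2` is the number of the monomials of degree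
less than `d` in two variables), `y` with `2 r j ≤ L j` and `y ≥ y₀` the following holds.

Let `0 ≤ N' j < b ^ L j` be arbitrary integers, prescribe for every position `t` a digit `f j t` different from the digit of
`N' j` in base `b`, and let for every `x` an arbitrary set `W x` of at most `x ^ B` weights `w : ℕ → [-1, 1]` be given (for instance
the indicator functions of intervals, residue classes or other sets of primes).  If one chooses `r j` of the `L j` positions and
replaces the digits of `N' j` at these positions, then for all but at most a proportion `1 / y ^ A` of the choices the plane curve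
`C` with the coefficients `m j` obtained has the following property: for all integers `x` with `y ≤ x ≤ exp (c r j)` for all `j` all
the joint moments of weight at most `d / q` of the coefficients `a_(k,p)` of the normalised L-polynomials at `s` consecutive primes
have, in the weighted mean over the first `x` primes, the values `moment`, up to the error in the property `Moments`. -/
theorem result (d D q s b : ℕ) (e : Fin D ≃ Exponent d) (hd : 2 ≤ d) (hq : 2 ≤ q) (hq2 : Even q) (hs : 1 ≤ s) (hb : 2 ≤ b)
    (δ : ℝ) (hδ : 0 < δ) (A B : ℕ) :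
    ∃ c : ℝ, 0 < c ∧ ∃ y₀ : ℕ, ∀ (L r : Fin D → ℕ) (y : ℕ), (∀ j, 2 * r j ≤ L j) → y₀ ≤ y →
    ∀ N' : Fin D → ℕ, (∀ j, N' j < b ^ L j) →
    ∀ f : Fin D → ℕ → ℕ, (∀ j t, f j t < b ∧ f j t ≠ digit b t (N' j)) →
    ∀ W : ℕ → Set (ℕ → ℝ), (∀ x, (W x).Finite ∧ (W x).ncard ≤ x ^ B) → (∀ x, ∀ w ∈ W x, ∀ j, |w j| ≤ 1) →
      (exceptions b L r N' f
        (fun m => ∀ x : ℕ, y ≤ x → (∀ j, (x : ℝ) ≤ Real.exp (c * r j)) → Moments e q s δ (W x) x m) : ℝ) ≤
        1 / (y : ℝ) ^ A * ∏ j, ((L j).choose (r j) : ℝ) := by
  obtain ⟨c, hc, y₀, h1⟩ := Pool.Agent.N842.PC.momC (N := 2) e le_rfl hd b s q hb hs hq hq2 δ hδ A B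
  refine ⟨c, hc, y₀, fun L r y hrL hy N' hN' f hf W hW hW1 => ?_⟩
  rw [exc_eq]
  refine h1 L r y hrL hy N' hN' f hf W hW hW1 _ fun m hm x hyx hxr w hw κ hκ => ?_
  have h2 := hm x hyx hxr w hw κ hκ
  simp only [value_eq, moment_eq]
  exact h2

end Pool.Agent.Results.MP_3da4c4_nt.SmoothPlaneCurves
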