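import Pool.Agent.N368.TS.Hyp

/-!
# The coefficients of the Euler factors of hyperelliptic curves of genus `g` at `s` consecutive primes, for almost all
members of families along thin sequences of parameter vectors

From Mathlib: `⌊y⌋`: the integer part of `y`; `Nat.nth Nat.Prime k`: the prime with the index `k`, starting with `k = 0`;
`Set.OrdConnected`: intervals; `MvPolynomial.eval t f`: the value of the polynomial `f` at `t`; `GaloisField p k`: the field
with `p ^ k` elements; `ProbabilityTheory.gaussianReal μ v`: the normal law with mean `μ` and variance `v`.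

Method: the vectors `(⌊P₁(n)⌋, ..., ⌊P_r(n)⌋)`, `N < n ≤ 2N`, are uniformly distributed in the residue classes modulo all
integers up to a power of `N`, with a power saving (`Pool.Agent.N666.VE`, `Pool.Agent.N666.TM`). The high moments of sums
of functions of the residues modulo coprime integers and the passage to all boxes: `Pool.Agent.N368.TS`. The bounds of Weil
for these curves and the moments over all the polynomials modulo one prime: `Pool.Agent.N842.ST`.
-/

set_option autoImplicit false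

namespace Pool.Agent.Results.MP_3da4c4_nt.ThinCoefficientFamilies

open Finset

/-- The function `∑ t ∈ F, b t * x ^ t` has the leading exponent `e`, which is positive and not an integer, with a
positive coefficient. -/
def Admissible (F : Finset ℝ) (b : ℝ → ℝ) (e : ℝ) : Prop :=
  e ∈ F ∧ (∀ t ∈ F, t ≤ e) ∧ 0 < e ∧ (∀ m : ℕ, e ≠ m) ∧ 0 < b e

/-- The vector of the integer parts of the values at `n`. -/
noncomputable def values {r : ℕ} (F : Fin r → Finset ℝ) (b : Fin r → ℝ → ℝ) (n : ℕ) : Fin r → ℤ :=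
  fun l => ⌊∑ t ∈ F l, b l t * (n : ℝ) ^ t⌋

/-- The number of the solutions of `Y ^ 2 = X ^ (2 g + 1) + c (2 g) X ^ (2 g) + ... + c 1 X + c 0` in the field with `p ^ k`
elements, `p` a prime number. -/
noncomputable def points (g k p : ℕ) (c : Fin (2 * g + 1) → ℤ) : ℕ :=
  if h : p.Prime then
    haveI : Fact p.Prime := ⟨h⟩
    Nat.card {P : GaloisField p k × GaloisField p k //
      P.2 ^ 2 = P.1 ^ (2 * g + 1) + ∑ i, (c i : GaloisField p k) * P.1 ^ (i : ℕ)}
  else 0

/-- `p ≠ 2` and the polynomial `X ^ (2 g + 1) + c (2 g) X ^ (2 g) + ... + c 0` is separable modulo `p`, so that the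
hyperelliptic curve `Y ^ 2 = X ^ (2 g + 1) + c (2 g) X ^ (2 g) + ... + c 0` of genus `g` has good reduction at `p`. -/
def Smooth (g p : ℕ) (c : Fin (2 * g + 1) → ℤ) : Prop :=
  p ≠ 2 ∧ (Polynomial.X ^ (2 * g + 1) + ∑ i, Polynomial.C (c i : ZMod p) * Polynomial.X ^ (i : ℕ)).Separable

/-- The number `(#C(F_q) - (q + 1)) / q ^ (1 / 2)`, where `q = p ^ k` (there is one point at infinity). -/
noncomputable def powerSum (g k p : ℕ) (c : Fin (2 * g + 1) → ℤ) : ℝ :=
  (((points g k p c : ℝ) + 1) - ((p : ℝ) ^ k + 1)) / √(p : ℝ) ^ k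

/-- The coefficient of `T ^ i` of the power series `exp (t 0 T + t 1 T ^ 2 / 2 + ... + t (D - 1) T ^ D / D)` (the formulas of
Newton). -/
noncomputable def coeff {D : ℕ} (t : Fin D → ℝ) : ℕ → ℝ
  | 0 => 1
  | i + 1 => (∑ j : Fin (i + 1), (if h : (j : ℕ) < D then t ⟨j, h⟩ else 0) * coeff t (i - j)) / (i + 1)

open Classical in
/-- The coefficient `a_i(p)` of `T ^ i`, `i ≤ 2 g + 1`, of the normalised Euler factor at `p` of the curve (the polynomial
`exp (∑ powerSum T ^ k / k)` of degree `2 g`); `0` if the curve is not smooth modulo `p`. -/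
noncomputable def a (g i p : ℕ) (c : Fin (2 * g + 1) → ℤ) : ℝ :=
  if Smooth g p c then coeff (fun k : Fin (2 * g + 1) => powerSum g (k + 1) p c) i else 0

/-- The mean of the product of the powers with the exponents `q i` of the coefficients of `T ^ i` (`1 ≤ i ≤ 2 g + 1`; here
the index is `i - 1`) of the power series `exp (∑ X_k T ^ k / k)`, where the `X_k` are independent normal variables with the
variances `k` and the means `1` for even `k` and `0` for odd `k`. -/
noncomputable def moment (g : ℕ) (q : Fin (2 * g + 1) → ℕ) : ℝ :=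
  ∫ x : Fin (2 * g + 1) → ℝ, ∏ i : Fin (2 * g + 1), coeff x (i + 1) ^ q i
    ∂(MeasureTheory.Measure.pi
      (fun k : Fin (2 * g + 1) =>
        ProbabilityTheory.gaussianReal (if Even ((k : ℕ) + 1) then 1 else 0) (((k : ℕ) + 1 : ℕ) : NNReal)))

open Classical in
/-- The number of the `k < K` such that for all `i < s` and `1 ≤ j ≤ g` the coefficient `a_j(p)` at the prime `p` with the
number `k + i` is in `I i (j - 1)` (the primes are numbered from `0`). -/
noncomputable def boxCount {s : ℕ} (g : ℕ) (I : Fin s → Fin g → Set ℝ) (K : ℕ) (c : Fin (2 * g + 1) → ℤ) : ℕ :=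
  ((range K).filter (fun k => ∀ (i : Fin s) (j : Fin g), a g (j + 1) (Nat.nth Nat.Prime (k + i)) c ∈ I i j)).card

open Classical in
/-- The proportion of the vectors of residues `t` modulo `p` for which the coefficients `a_1(p), ..., a_g(p)` of the curve
with the coefficients `A i(t)` are in `S 0, ..., S (g - 1)`. -/
noncomputable def proportion {r : ℕ} (g : ℕ) (A : Fin (2 * g + 1) → MvPolynomial (Fin r) ℤ) (p : ℕ)
    (S : Fin g → Set ℝ) : ℝ :=
  ((Fintype.piFinset (fun _ : Fin r => range p)).filter (fun t => ∀ j : Fin g,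
    a g (j + 1) p (fun i => MvPolynomial.eval (fun l => (t l : ℤ)) (A i)) ∈ S j)).card / (p : ℝ) ^ r

/-- The expected number: the sum over `k < K` of the product of the proportions at the `s` primes. -/
noncomputable def boxModel {r s : ℕ} (g : ℕ) (A : Fin (2 * g + 1) → MvPolynomial (Fin r) ℤ) (I : Fin s → Fin g → Set ℝ)
    (K : ℕ) : ℝ :=
  ∑ k ∈ range K, ∏ i : Fin s, proportion g A (Nat.nth Nat.Prime (k + i)) (I i)

/-- For all exponents `q e i` (`e < s`, `1 ≤ i ≤ 2 g + 1`; here the index is `i - 1`) of weight `∑ i (q e i) ≤ 2 g + 1` for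
every `e`: the weighted sum over `k < K` of the products `∏ a_i(p_(k + e)) ^ (q e i)` is `∑ w k` times the product of the
moments `moment g (q e)`, up to `err`. -/
def Moments (g s : ℕ) (w : ℕ → ℝ) (K : ℕ) (err : ℝ) (c : Fin (2 * g + 1) → ℤ) : Prop :=
  ∀ q : Fin s → Fin (2 * g + 1) → ℕ, (∀ e, ∑ i : Fin (2 * g + 1), (i + 1 : ℕ) * q e i ≤ 2 * g + 1) →
    |∑ k ∈ range K, w k * ∏ e : Fin s, ∏ i : Fin (2 * g + 1), a g (i + 1) (Nat.nth Nat.Prime (k + e)) c ^ q e i -
      (∑ k ∈ range K, w k) * ∏ e : Fin s, moment g (q e)| ≤ err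

open Pool.Agent.N368.TS (rs GC PerV)

theorem coeff_eq {D : ℕ} (t : Fin D → ℝ) (i : ℕ) : coeff t i = Pool.Agent.N842.ST.cl t i := by
  induction i using Nat.strong_induction_on with
  | _ i ih =>
    cases i with
    | zero => rw [coeff, Pool.Agent.N842.ST.cl]
    | succ i =>
      rw [coeff, Pool.Agent.N842.ST.cl]
      congr 1
      refine sum_congr rfl fun j _ => ?_
      rw [ih (i - j) (by omega)]

theorem moment_eq (g : ℕ) (q : Fin (2 * g + 1) → ℕ) : moment g q = Pool.Agent.N368.TS.mom (2 * g + 1) q := by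
  unfold moment Pool.Agent.N368.TS.mom
  simp only [coeff_eq]

theorem smooth_rs (g p : ℕ) (hp : p.Prime) (c : Fin (2 * g + 1) → ℤ) :
    Smooth g p c ↔ Pool.Agent.N842.ST.Good 2 (2 * g + 1) p (rs p c) := by
  unfold Smooth Pool.Agent.N842.ST.Good
  simp only [Pool.Agent.N368.TS.cast_rs p hp.pos (ZMod p)]

theorem points_rs (g k p : ℕ) [hp : Fact p.Prime] (hk : k ≠ 0) (c : Fin (2 * g + 1) → ℤ) :
    (points g k p c : ℝ) = (p : ℝ) ^ k +
      Pool.Agent.N842.ST.S p 2 k (Pool.Agent.N842.ST.fp p (fun i => ((rs p c i : ℕ) : ZMod p))) := by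
  unfold points
  rw [dif_pos hp.out, ← Pool.Agent.N842.ST.card_points 2 p k hk (rs p c)]
  simp only [Pool.Agent.N368.TS.cast_rs p hp.out.pos (GaloisField p k)]

open Classical in
theorem a_eq (g i p : ℕ) (hp : p.Prime) (c : Fin (2 * g + 1) → ℤ) : a g i p c =
    if Pool.Agent.N842.ST.Good 2 (2 * g + 1) p (rs p c) then
      Pool.Agent.N842.ST.cl (fun j : Fin (2 * g + 1) => Pool.Agent.N842.ST.A 2 (2 * g + 1) (j + 1) p (rs p c)) i else 0 := by
  have : Fact p.Prime := ⟨hp⟩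
  unfold a
  by_cases h : Smooth g p c
  · have h' := (smooth_rs g p hp c).1 h
    rw [if_pos h, if_pos h', coeff_eq]
    congr 1
    funext k
    unfold powerSum Pool.Agent.N842.ST.A
    have h3 : (Pool.Agent.N842.ST.fp p (fun i => ((rs p c i : ℕ) : ZMod p))).Separable := h'.2
    rw [dif_pos ⟨hp, h.1⟩, if_pos h3, points_rs g (k + 1) p (by omega) c]
    congr 1
    ring
  · rw [if_neg h, if_neg (fun h' => h ((smooth_rs g p hp c).2 h'))]

theorem prod_eq (g p : ℕ) (hp : p.Prime) (q : Fin (2 * g + 1) → ℕ) (c : Fin (2 * g + 1) → ℤ) :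
    ∏ i : Fin (2 * g + 1), a g (i + 1) p c ^ q i = GC (2 * g + 1) q p c := by
  classical
  unfold GC Pool.Agent.N842.ST.CV
  refine prod_congr rfl fun i _ => ?_
  rw [a_eq g (i + 1) p hp c]

theorem a_congr (g i p : ℕ) {c d : Fin (2 * g + 1) → ℤ} (h : ∀ l, (p : ℤ) ∣ c l - d l) : a g i p c = a g i p d := by
  by_cases hp : p.Prime
  · rw [a_eq g i p hp, a_eq g i p hp, Pool.Agent.N368.TS.rs_congr p h]
  · have h1 : ∀ k (c : Fin (2 * g + 1) → ℤ), points g k p c = 0 := by
      intro k c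
      unfold points
      rw [dif_neg hp]
    have h2 : ∀ l, ((c l : ℤ) : ZMod p) = ((d l : ℤ) : ZMod p) := by
      intro l
      rw [← sub_eq_zero, ← Int.cast_sub, ZMod.intCast_zmod_eq_zero_iff_dvd]
      exact h l
    have h3 : Smooth g p c ↔ Smooth g p d := by
      unfold Smooth
      simp only [h2]
    have h4 : (fun k : Fin (2 * g + 1) => powerSum g (k + 1) p c) = fun k : Fin (2 * g + 1) => powerSum g (k + 1) p d := by
      funext k
      unfold powerSum
      rw [h1, h1]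
    unfold a
    rw [h4]
    by_cases h5 : Smooth g p c
    · rw [if_pos h5, if_pos (h3.1 h5)]
    · rw [if_neg h5, if_neg (fun h6 => h5 (h3.2 h6))]

theorem eval_congr {r : ℕ} (f : MvPolynomial (Fin r) ℤ) (p : ℕ) {c d : Fin r → ℤ} (h : ∀ l, (p : ℤ) ∣ c l - d l) :
    (p : ℤ) ∣ MvPolynomial.eval c f - MvPolynomial.eval d f := by
  induction f using MvPolynomial.induction_on with
  | C z => simp
  | add f g hf hg =>
    rw [map_add, map_add]
    have e : MvPolynomial.eval c f + MvPolynomial.eval c g - (MvPolynomial.eval d f + MvPolynomial.eval d g) =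
        (MvPolynomial.eval c f - MvPolynomial.eval d f) + (MvPolynomial.eval c g - MvPolynomial.eval d g) := by ring
    rw [e]
    exact dvd_add hf hg
  | mul_X f i hf =>
    rw [map_mul, map_mul, MvPolynomial.eval_X, MvPolynomial.eval_X]
    have e : MvPolynomial.eval c f * c i - MvPolynomial.eval d f * d i =
        (MvPolynomial.eval c f - MvPolynomial.eval d f) * c i + MvPolynomial.eval d f * (c i - d i) := by ring
    rw [e]
    exact dvd_add (hf.mul_right _) ((h i).mul_left _)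

open Classical in
theorem boxes (g r s : ℕ) (hr : 1 ≤ r) (hs : 1 ≤ s) (F : Fin r → Finset ℝ) (b : Fin r → ℝ → ℝ) (e : Fin r → ℝ)
    (h : ∀ l, Admissible (F l) (b l) (e l)) (he : Function.Injective e) (δ : ℝ) (hδ : 0 < δ) :
    ∃ θ C : ℝ, 0 < θ ∧ 0 < C ∧ ∀ (A : Fin (2 * g + 1) → MvPolynomial (Fin r) ℤ) (N : ℕ), 1 ≤ N →
      (((Ioc N (2 * N)).filter (fun n : ℕ => ¬ ∀ K : ℕ, (K : ℝ) ≤ (N : ℝ) ^ θ →
        ∀ I : Fin s → Fin g → Set ℝ, (∀ i j, (I i j).OrdConnected) →
          |(boxCount g I K (fun i => MvPolynomial.eval (values F b n) (A i)) : ℝ) - boxModel g A I K| ≤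
              C * ((K : ℝ) ^ (1 / 2 + δ) * √(1 + Real.log N)))).card : ℝ) ≤ C * (N : ℝ) ^ (1 - θ) := by
  have : Nonempty (Fin r) := ⟨⟨0, hr⟩⟩
  obtain ⟨⟨ρ, σ, C₀, hv⟩, -⟩ := Pool.Agent.N368.TS.fl_pev h he
  obtain ⟨κ, C, h1, h2, h3, H⟩ := Pool.Agent.N368.TS.consecutive2 hv (Fin g) s hs δ hδ
  refine ⟨κ, C, h1, by linarith, fun A N hN => ?_⟩
  obtain ⟨E, hE1, hE2⟩ := H (fun p t j => a g (j + 1) p (fun i => MvPolynomial.eval t (A i))) (by
    intro p c d hcd
    funext j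
    exact a_congr g (j + 1) p (fun i => eval_congr _ p hcd)) N hN
  refine le_trans (Nat.cast_le.2 (card_le_card fun n hn => ?_)) hE1
  rw [mem_filter] at hn
  by_contra hnE
  apply hn.2
  intro K hK I hI
  have h4 := hE2 n hn.1 hnE K hK I hI
  rw [sum_sub_distrib] at h4
  have e1 : (boxCount g I K (fun i => MvPolynomial.eval (values F b n) (A i)) : ℝ) = ∑ k ∈ range K,
      Pool.Agent.N368.TS.indv (fun z : Fin s × Fin g => I z.1 z.2) (fun z =>
        a g (z.2 + 1) (Pool.Agent.TH869.SQ.pr (k + z.1)) (fun i => MvPolynomial.eval (values F b n) (A i))) := by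
    unfold boxCount Pool.Agent.TH869.SQ.pr
    rw [card_filter, Nat.cast_sum]
    refine sum_congr rfl fun k _ => ?_
    rw [Nat.cast_ite, Nat.cast_one, Nat.cast_zero]
    exact Pool.Agent.N368.TS.indv_eq _ _ _ ⟨fun h z => h z.1 z.2, fun h i j => h (i, j)⟩
  have e2 : boxModel g A I K = ∑ k ∈ range K, ∏ i : Fin s,
      Pool.Agent.N368.TS.av (Pool.Agent.TH869.SQ.pr (k + i)) (fun t : Fin r → ℤ =>
        Pool.Agent.N368.TS.indv (I i) (fun j => a g (j + 1) (Pool.Agent.TH869.SQ.pr (k + i))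
          (fun i => MvPolynomial.eval t (A i)))) := by
    unfold boxModel proportion Pool.Agent.N368.TS.av Pool.Agent.N368.TS.bx Pool.Agent.TH869.SQ.pr
    refine sum_congr rfl fun k _ => prod_congr rfl fun i _ => ?_
    rw [card_filter, Nat.cast_sum, Fintype.card_fin]
    congr 1
    refine sum_congr rfl fun t _ => ?_
    rw [Nat.cast_ite, Nat.cast_one, Nat.cast_zero]
    exact Pool.Agent.N368.TS.indv_eq _ _ _ Iff.rfl
  rw [e1, e2]
  unfold Pool.Agent.TH869.SQ.lam at h4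
  exact h4

/-- the sum of the inverse square roots of the first primes -/
theorem sum_inv (K e : ℕ) : ∑ k ∈ range K, 1 / √((Pool.Agent.TH869.SQ.pr (k + e) : ℕ) : ℝ) ≤ 2 * √(K : ℝ) := by
  have h1 : ∀ k : ℕ, 1 / √((Pool.Agent.TH869.SQ.pr (k + e) : ℕ) : ℝ) ≤ 2 * (√((k + 1 : ℕ) : ℝ) - √(k : ℝ)) := by
    intro k
    have h2 : k + 1 ≤ Pool.Agent.TH869.SQ.pr (k + e) := by
      have h3 := Nat.add_two_le_nth_prime (k + e)
      show k + 1 ≤ Nat.nth Nat.Prime (k + e)
      omega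
    have hk0 : (0 : ℝ) ≤ k := Nat.cast_nonneg k
    have h3 : (0 : ℝ) < √((k + 1 : ℕ) : ℝ) := Real.sqrt_pos.2 (by positivity)
    have h4 : 1 / √((Pool.Agent.TH869.SQ.pr (k + e) : ℕ) : ℝ) ≤ 1 / √((k + 1 : ℕ) : ℝ) :=
      one_div_le_one_div_of_le h3 (Real.sqrt_le_sqrt (by exact_mod_cast h2))
    refine h4.trans ?_
    rw [div_le_iff₀ h3]
    have h5 : √(k : ℝ) ≤ √((k + 1 : ℕ) : ℝ) := Real.sqrt_le_sqrt (by push_cast; linarith)
    have h6 : √((k + 1 : ℕ) : ℝ) * √((k + 1 : ℕ) : ℝ) = k + 1 := by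
      rw [Real.mul_self_sqrt (by positivity)]
      push_cast
      ring
    have h7 : √(k : ℝ) * √(k : ℝ) = k := Real.mul_self_sqrt hk0
    have h8 : 0 ≤ √(k : ℝ) := Real.sqrt_nonneg _
    nlinarith
  calc ∑ k ∈ range K, 1 / √((Pool.Agent.TH869.SQ.pr (k + e) : ℕ) : ℝ) ≤
        ∑ k ∈ range K, 2 * (√((k + 1 : ℕ) : ℝ) - √(k : ℝ)) := sum_le_sum fun k _ => h1 k
    _ = 2 * √(K : ℝ) := by
        rw [← mul_sum, sum_range_sub (fun k : ℕ => √(k : ℝ))]
        simp

open Classical in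
theorem moments (g r s : ℕ) (hr : 1 ≤ r) (hs : 1 ≤ s) (F : Fin r → Finset ℝ) (b : Fin r → ℝ → ℝ) (e : Fin r → ℝ)
    (h : ∀ l, Admissible (F l) (b l) (e l)) (he : Function.Injective e) (δ : ℝ) (hδ : 0 < δ) :
    ∃ θ : ℝ, 0 < θ ∧ ∀ M : Fin (2 * g + 1) → Fin r → ℤ, LinearIndependent ℤ M → ∃ C : ℝ, 0 < C ∧
      ∀ (c₀ : Fin (2 * g + 1) → ℤ) (N : ℕ), 1 ≤ N → ∀ W : Finset (ℕ → ℝ), (W.card : ℝ) ≤ (N : ℝ) ^ θ →
      (∀ w ∈ W, ∀ k, |w k| ≤ 1) →
      (((Ioc N (2 * N)).filter (fun n : ℕ => ¬ ∀ w ∈ W, ∀ K : ℕ, (K : ℝ) ≤ (N : ℝ) ^ θ →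
        Moments g s w K (C * ((K : ℝ) ^ (1 / 2 + δ) * √(1 + Real.log N)))
          (fun i => c₀ i + ∑ l, M i l * values F b n l))).card : ℝ) ≤ C * (N : ℝ) ^ (1 - θ) := by
  have : Nonempty (Fin r) := ⟨⟨0, hr⟩⟩
  obtain ⟨⟨ρ, σ, C₀, hv⟩, -⟩ := Pool.Agent.N368.TS.fl_pev h he
  obtain ⟨κ, C₁, h1, h2, h3, H⟩ := Pool.Agent.N368.TS.bounded2 hv s hs δ hδ
  refine ⟨κ, h1, fun M hM => ?_⟩
  obtain ⟨D, hDd⟩ : ∃ D : ℕ, D = 2 * g + 1 := ⟨_, rfl⟩
  have hD : Nat.Coprime (2 * g + 1) 2 := by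
    rw [Nat.coprime_two_right, Nat.odd_iff]
    omega
  -- the admissible exponents
  obtain ⟨Q, hQ⟩ : ∃ Q : Finset (Fin (2 * g + 1) → ℕ), Q = (Fintype.piFinset (fun _ : Fin (2 * g + 1) =>
    range (2 * g + 1 + 1))).filter (fun q => ∑ k : Fin (2 * g + 1), (k + 1 : ℕ) * q k ≤ 2 * g + 1) := ⟨_, rfl⟩
  have hQm : ∀ q : Fin (2 * g + 1) → ℕ, q ∈ Q ↔ ∑ k : Fin (2 * g + 1), (k + 1 : ℕ) * q k ≤ 2 * g + 1 := by
    intro q
    rw [hQ, mem_filter]
    constructor
    · exact fun h => h.2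
    · intro h
      refine ⟨?_, h⟩
      rw [Fintype.mem_piFinset]
      intro k
      rw [mem_range]
      have h2 : (k + 1 : ℕ) * q k ≤ ∑ k : Fin (2 * g + 1), (k + 1 : ℕ) * q k :=
        single_le_sum (f := fun k : Fin (2 * g + 1) => (k + 1 : ℕ) * q k) (fun k _ => Nat.zero_le _) (mem_univ k)
      have h3 : q k ≤ (k + 1 : ℕ) * q k := Nat.le_mul_of_pos_left _ (by omega)
      omega
  -- the bounds
  have hb1 : ∀ q : Fin (2 * g + 1) → ℕ, ∃ β : ℝ, ∀ (p : ℕ) (m : Fin (2 * g + 1) → ℕ),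
      |Pool.Agent.N842.ST.CV 2 (2 * g + 1) p q m| ≤ β := fun q =>
    Pool.Agent.N842.ST.CV_bd 2 Nat.prime_two (2 * g + 1) hD q
  choose β hβ using hb1
  have hβ0 : ∀ q, 0 ≤ β q := fun q => (abs_nonneg _).trans (hβ q 2 0)
  have hm1 : ∀ q : Fin (2 * g + 1) → ℕ, ∃ C : ℝ, 0 ≤ C ∧ (q ∈ Q → ∀ c₀ : Fin (2 * g + 1) → ℤ, ∀ p : ℕ, p.Prime →
      |Pool.Agent.N368.TS.av p (fun t : Fin r → ℤ => GC (2 * g + 1) q p (fun j => c₀ j + ∑ l, M j l * t l)) -
        moment g q| ≤ C / √(p : ℝ)) := by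
    intro q
    by_cases hq : q ∈ Q
    · obtain ⟨C, hC, hC2⟩ := Pool.Agent.N368.TS.GC_mean (2 * g + 1) hD M hM q ((hQm q).1 hq)
      refine ⟨C, hC, fun _ => ?_⟩
      rw [moment_eq]
      exact hC2
    · exact ⟨0, le_rfl, fun h => absurd h hq⟩
  choose γ hγ0 hγ using hm1
  obtain ⟨B, hB⟩ : ∃ B : ℝ, B = 1 + ∑ q ∈ Q, (β q + |moment g q|) := ⟨_, rfl⟩
  have hBs : 0 ≤ ∑ q ∈ Q, (β q + |moment g q|) := sum_nonneg fun q _ => by
    have := hβ0 q
    positivity
  have hB1 : 1 ≤ B := by rw [hB]; linarith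
  have hBq : ∀ q ∈ Q, β q + |moment g q| ≤ B := by
    intro q hq
    have := single_le_sum (f := fun q => β q + |moment g q|) (fun q _ => by
      have := hβ0 q
      show 0 ≤ β q + |moment g q|
      positivity) hq
    rw [hB]
    linarith
  obtain ⟨Γ, hΓ⟩ : ∃ Γ : ℝ, Γ = ∑ q ∈ Q, γ q := ⟨_, rfl⟩
  have hΓ0 : 0 ≤ Γ := by rw [hΓ]; exact sum_nonneg fun q _ => hγ0 q
  have hγΓ : ∀ q ∈ Q, γ q ≤ Γ := by
    intro q hq
    rw [hΓ]
    exact single_le_sum (f := γ) (fun q _ => hγ0 q) hq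
  obtain ⟨C, hC⟩ : ∃ C : ℝ, C = C₁ * (Q.card : ℝ) ^ s + C₁ * (2 * B ^ s) + B ^ s * (s * (Γ * 2)) := ⟨_, rfl⟩
  have hBs1 : 1 ≤ B ^ s := one_le_pow₀ hB1
  have hs0 : (0 : ℝ) ≤ s := Nat.cast_nonneg s
  have hCa : C₁ * (Q.card : ℝ) ^ s ≤ C := by
    rw [hC]
    have e1 : 0 ≤ C₁ * (2 * B ^ s) := by positivity
    have e2 : 0 ≤ B ^ s * (s * (Γ * 2)) := by positivity
    linarith
  have hCb : C₁ * (2 * B ^ s) + B ^ s * (s * (Γ * 2)) ≤ C := by
    rw [hC]
    have e1 : 0 ≤ C₁ * (Q.card : ℝ) ^ s := by positivity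
    linarith
  have hC0 : 0 < C := by
    have e1 : 0 < C₁ * (2 * B ^ s) := by positivity
    have e2 : 0 ≤ B ^ s * (s * (Γ * 2)) := by positivity
    linarith
  refine ⟨C, hC0, fun c₀ N hN W hW hw => ?_⟩
  have hN1 : (1 : ℝ) ≤ N := by exact_mod_cast hN
  obtain ⟨E, hE1, hE2⟩ := H (Fin (2 * g + 1) → ℕ) Q B hB1
    (fun q p t => GC (2 * g + 1) q p (fun j => c₀ j + ∑ l, M j l * t l)) (by
      intro q _ p _ c d hcd
      apply Pool.Agent.N368.TS.GC_per (2 * g + 1) q p
      intro j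
      have e1 : c₀ j + ∑ l, M j l * c l - (c₀ j + ∑ l, M j l * d l) = ∑ l, M j l * (c l - d l) := by
        simp only [mul_sub, sum_sub_distrib]
        ring
      rw [e1]
      exact dvd_sum fun l _ => (hcd l).mul_left _) (by
      intro q hq p _ t
      have e1 := hβ q p (rs p (fun j => c₀ j + ∑ l, M j l * t l))
      have e2 := hBq q hq
      have e3 := abs_nonneg (moment g q)
      exact e1.trans (by linarith)) N hN W hW hw
  refine le_trans (Nat.cast_le.2 (card_le_card fun n hn => ?_)) (hE1.trans (mul_le_mul_of_nonneg_right hCa (by positivity)))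
  rw [mem_filter] at hn
  by_contra hnE
  apply hn.2
  intro w hw1 K hK q hq
  have hqQ : ∀ e, q e ∈ Q := fun e => (hQm _).2 (hq e)
  have h4 := hE2 n hn.1 hnE w hw1 K hK q hqQ
  -- the products
  have e1 : ∀ k : ℕ, ∏ e : Fin s, ∏ i : Fin (2 * g + 1), a g (i + 1) (Nat.nth Nat.Prime (k + e))
      (fun i => c₀ i + ∑ l, M i l * values F b n l) ^ q e i =
      ∏ e : Fin s, GC (2 * g + 1) (q e) (Pool.Agent.TH869.SQ.pr (k + e)) (fun j => c₀ j + ∑ l, M j l * values F b n l) := by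
    intro k
    exact prod_congr rfl fun e _ => prod_eq g _ (Nat.prime_nth_prime _) (q e) _
  simp only [e1]
  have e2 : ∑ k ∈ range K, w k * ∏ e : Fin s, GC (2 * g + 1) (q e) (Pool.Agent.TH869.SQ.pr (k + e))
        (fun j => c₀ j + ∑ l, M j l * values F b n l) - (∑ k ∈ range K, w k) * ∏ e : Fin s, moment g (q e) =
      ∑ k ∈ range K, w k * (∏ e : Fin s, GC (2 * g + 1) (q e) (Pool.Agent.TH869.SQ.pr (k + e))
        (fun j => c₀ j + ∑ l, M j l * values F b n l) - ∏ e : Fin s, Pool.Agent.N368.TS.av (Pool.Agent.TH869.SQ.pr (k + e))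
          (fun t : Fin r → ℤ => GC (2 * g + 1) (q e) (Pool.Agent.TH869.SQ.pr (k + e))
            (fun j => c₀ j + ∑ l, M j l * t l))) +
      ∑ k ∈ range K, w k * (∏ e : Fin s, Pool.Agent.N368.TS.av (Pool.Agent.TH869.SQ.pr (k + e))
          (fun t : Fin r → ℤ => GC (2 * g + 1) (q e) (Pool.Agent.TH869.SQ.pr (k + e))
            (fun j => c₀ j + ∑ l, M j l * t l)) - ∏ e : Fin s, moment g (q e)) := by
    rw [← sum_add_distrib, sum_mul, ← sum_sub_distrib]
    refine sum_congr rfl fun k _ => ?_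
    ring
  rw [e2]
  -- the second sum
  have h5 : |∑ k ∈ range K, w k * (∏ e : Fin s, Pool.Agent.N368.TS.av (Pool.Agent.TH869.SQ.pr (k + e))
          (fun t : Fin r → ℤ => GC (2 * g + 1) (q e) (Pool.Agent.TH869.SQ.pr (k + e))
            (fun j => c₀ j + ∑ l, M j l * t l)) - ∏ e : Fin s, moment g (q e))| ≤ B ^ s * (s * (Γ * (2 * √(K : ℝ)))) := by
    have h6 : ∀ k : ℕ, |w k * (∏ e : Fin s, Pool.Agent.N368.TS.av (Pool.Agent.TH869.SQ.pr (k + e))
          (fun t : Fin r → ℤ => GC (2 * g + 1) (q e) (Pool.Agent.TH869.SQ.pr (k + e))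
            (fun j => c₀ j + ∑ l, M j l * t l)) - ∏ e : Fin s, moment g (q e))| ≤
        B ^ s * ∑ e : Fin s, Γ * (1 / √((Pool.Agent.TH869.SQ.pr (k + e) : ℕ) : ℝ)) := by
      intro k
      rw [abs_mul]
      have h7 := Pool.Agent.N842.ST.prod_diff (univ : Finset (Fin s)) (fun e => Pool.Agent.N368.TS.av
          (Pool.Agent.TH869.SQ.pr (k + e)) (fun t : Fin r → ℤ => GC (2 * g + 1) (q e) (Pool.Agent.TH869.SQ.pr (k + e))
            (fun j => c₀ j + ∑ l, M j l * t l))) (fun e => moment g (q e)) B hB1 (by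
          intro e _
          refine Pool.Agent.N368.TS.av_abs (Nat.prime_nth_prime _).pos fun t => ?_
          have e1 := hβ (q e) (Pool.Agent.TH869.SQ.pr (k + e)) (rs (Pool.Agent.TH869.SQ.pr (k + e))
            (fun j => c₀ j + ∑ l, M j l * t l))
          have e2 := hBq (q e) (hqQ e)
          have e3 := abs_nonneg (moment g (q e))
          exact e1.trans (by linarith)) (by
          intro e _
          have e2 := hBq (q e) (hqQ e)
          have e3 := hβ0 (q e)
          linarith)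
      rw [card_univ, Fintype.card_fin] at h7
      calc |w k| * |∏ e : Fin s, Pool.Agent.N368.TS.av (Pool.Agent.TH869.SQ.pr (k + e))
            (fun t : Fin r → ℤ => GC (2 * g + 1) (q e) (Pool.Agent.TH869.SQ.pr (k + e))
              (fun j => c₀ j + ∑ l, M j l * t l)) - ∏ e : Fin s, moment g (q e)| ≤
            1 * (B ^ s * ∑ e : Fin s, Γ * (1 / √((Pool.Agent.TH869.SQ.pr (k + e) : ℕ) : ℝ))) := by
            refine mul_le_mul (hw w hw1 k) (h7.trans ?_) (abs_nonneg _) zero_le_one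
            apply mul_le_mul_of_nonneg_left _ (by positivity)
            refine sum_le_sum fun e _ => ?_
            have e4 := hγ (q e) (hqQ e) c₀ (Pool.Agent.TH869.SQ.pr (k + e)) (Nat.prime_nth_prime _)
            refine e4.trans ?_
            rw [div_eq_mul_one_div]
            exact mul_le_mul_of_nonneg_right (hγΓ _ (hqQ e)) (by positivity)
        _ = _ := one_mul _
    refine (abs_sum_le_sum_abs _ _).trans ((sum_le_sum fun k _ => h6 k).trans ?_)
    rw [← mul_sum]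
    apply mul_le_mul_of_nonneg_left _ (by positivity)
    rw [sum_comm]
    calc ∑ e : Fin s, ∑ k ∈ range K, Γ * (1 / √((Pool.Agent.TH869.SQ.pr (k + e) : ℕ) : ℝ)) ≤
          ∑ _e : Fin s, Γ * (2 * √(K : ℝ)) := by
          refine sum_le_sum fun e _ => ?_
          rw [← mul_sum]
          exact mul_le_mul_of_nonneg_left (sum_inv K e) hΓ0
      _ = s * (Γ * (2 * √(K : ℝ))) := by
          rw [sum_const, card_univ, Fintype.card_fin, nsmul_eq_mul]
  have h6 : √(K : ℝ) ≤ Pool.Agent.TH869.SQ.lam δ N K := by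
    unfold Pool.Agent.TH869.SQ.lam
    rcases Nat.eq_zero_or_pos K with h0 | h0
    · rw [h0, Nat.cast_zero, Real.sqrt_zero]
      positivity
    · have hK1 : (1 : ℝ) ≤ K := by exact_mod_cast h0
      have e5 : √(K : ℝ) ≤ (K : ℝ) ^ (1 / 2 + δ) := by
        rw [Real.sqrt_eq_rpow]
        exact Real.rpow_le_rpow_of_exponent_le hK1 (by linarith)
      have e6 : 1 ≤ √(1 + Real.log N) := Real.one_le_sqrt.mpr (by have := Real.log_nonneg hN1; linarith)
      calc √(K : ℝ) ≤ (K : ℝ) ^ (1 / 2 + δ) := e5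
        _ ≤ _ := le_mul_of_one_le_right (by positivity) e6
  have hlam := Pool.Agent.TH869.SQ.lam_nonneg δ N K
  have h7 : B ^ s * (s * (Γ * (2 * √(K : ℝ)))) ≤ B ^ s * (s * (Γ * 2)) * Pool.Agent.TH869.SQ.lam δ N K := by
    calc B ^ s * (s * (Γ * (2 * √(K : ℝ)))) = B ^ s * (s * (Γ * 2)) * √(K : ℝ) := by ring
      _ ≤ _ := mul_le_mul_of_nonneg_left h6 (by positivity)
  have h8 := (abs_add_le _ _).trans (add_le_add h4 (h5.trans h7))
  refine h8.trans ?_
  have h9 : C₁ * (2 * B ^ s) * Pool.Agent.TH869.SQ.lam δ N K + B ^ s * (s * (Γ * 2)) * Pool.Agent.TH869.SQ.lam δ N K ≤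
      C * Pool.Agent.TH869.SQ.lam δ N K := by
    rw [← add_mul]
    exact mul_le_mul_of_nonneg_right hCb hlam
  exact h9

open Classical in
/-- Let `g ≥ 1` and `P₁, ..., P_r`, `r ≥ 1`, be generalised polynomials (finite sums of real powers with real coefficients)
whose leading exponents are positive, not integers and distinct, with positive leading coefficients; let `s ≥ 1` and `δ > 0`
be given. For `n ≥ 1` let `t = (⌊P₁(n)⌋, ..., ⌊P_r(n)⌋)`.

**(1)** There are `θ > 0` and `C` such that for all polynomials `A_0, ..., A_(2 g) ∈ ℤ[T₁, ..., T_r]` and all `N ≥ 1`, all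
the integers `N < n ≤ 2 N` with at most `C N ^ (1 - θ)` exceptions have the following property: for every `K ≤ N ^ θ` and
every product of `s g` intervals, the number of the `k < K` such that the coefficients `a_1(p), ..., a_g(p)` of the
normalised Euler factors of the curve `Y ^ 2 = X ^ (2 g + 1) + A_(2 g)(t) X ^ (2 g) + ... + A_0(t)` at the `s` consecutive
primes with the numbers `k, ..., k + s - 1` are in the intervals differs from the expected number (the sum over `k < K` of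
the product of the proportions, over the vectors of residues modulo the primes) by at most
`C K ^ (1 / 2 + δ) (1 + log N) ^ (1 / 2)`.

**(2)** There is `θ > 0` such that for linearly independent `M_0, ..., M_(2 g) ∈ ℤ^r` there is `C` such that for all integers
`c_0, ..., c_(2 g)`, all `N ≥ 1` and all sets `W` of at most `N ^ θ` weights `w : ℕ → [-1, 1]`, the curves
`Y ^ 2 = X ^ (2 g + 1) + ∑ (c_i + M_i · t) X ^ i` have the following property for all the integers `N < n ≤ 2 N` with at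
most `C N ^ (1 - θ)` exceptions: for all `w ∈ W`, all `K ≤ N ^ θ` and all exponents of weight at most `2 g + 1` at each of
the `s` primes, the weighted sum over `k < K` of the product of the powers of the coefficients `a_i` at the `s` consecutive
primes is `∑ w k` times the product of the moments, up to `C K ^ (1 / 2 + δ) (1 + log N) ^ (1 / 2)`. -/
theorem result (g r s : ℕ) (hr : 1 ≤ r) (hs : 1 ≤ s) (F : Fin r → Finset ℝ) (b : Fin r → ℝ → ℝ) (e : Fin r → ℝ)
    (h : ∀ l, Admissible (F l) (b l) (e l)) (he : Function.Injective e) (δ : ℝ) (hδ : 0 < δ) :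
    (∃ θ C : ℝ, 0 < θ ∧ 0 < C ∧ ∀ (A : Fin (2 * g + 1) → MvPolynomial (Fin r) ℤ) (N : ℕ), 1 ≤ N →
      (((Ioc N (2 * N)).filter (fun n : ℕ => ¬ ∀ K : ℕ, (K : ℝ) ≤ (N : ℝ) ^ θ →
        ∀ I : Fin s → Fin g → Set ℝ, (∀ i j, (I i j).OrdConnected) →
          |(boxCount g I K (fun i => MvPolynomial.eval (values F b n) (A i)) : ℝ) - boxModel g A I K| ≤
              C * ((K : ℝ) ^ (1 / 2 + δ) * √(1 + Real.log N)))).card : ℝ) ≤ C * (N : ℝ) ^ (1 - θ)) ∧
    (∃ θ : ℝ, 0 < θ ∧ ∀ M : Fin (2 * g + 1) → Fin r → ℤ, LinearIndependent ℤ M → ∃ C : ℝ, 0 < C ∧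
      ∀ (c₀ : Fin (2 * g + 1) → ℤ) (N : ℕ), 1 ≤ N → ∀ W : Finset (ℕ → ℝ), (W.card : ℝ) ≤ (N : ℝ) ^ θ →
      (∀ w ∈ W, ∀ k, |w k| ≤ 1) →
      (((Ioc N (2 * N)).filter (fun n : ℕ => ¬ ∀ w ∈ W, ∀ K : ℕ, (K : ℝ) ≤ (N : ℝ) ^ θ →
        Moments g s w K (C * ((K : ℝ) ^ (1 / 2 + δ) * √(1 + Real.log N)))
          (fun i => c₀ i + ∑ l, M i l * values F b n l))).card : ℝ) ≤ C * (N : ℝ) ^ (1 - θ)) :=
  ⟨boxes g r s hr hs F b e h he δ hδ, moments g r s hr hs F b e h he δ hδ⟩

end Pool.Agent.Results.MP_3da4c4_nt.ThinCoefficientFamilies
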